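import Pool.Agent.Hhelper24.UB.LemL

set_option autoImplicit false

/-!
# The bilinear estimate for the block Haar multipliers
-/

namespace Pool.Agent.Hhelper24.UB

open Finset

set_option linter.unusedSectionVars false

section chain

variable {V : Type*} [Fintype V] [DecidableEq V]

/-- `G β` is the set of predecessors of `β` in a linear order on `D`. -/
def IsChainOn (D : Finset V) (G : V → Finset V) : Prop :=
  (∀ β ∈ D, G β ⊆ D ∧ β ∉ G β) ∧
  (∀ β ∈ D, ∀ γ ∈ D, β ≠ γ → β ∈ G γ ∨ γ ∈ G β) ∧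
  (∀ β ∈ D, ∀ γ ∈ D, β ∈ G γ → G β ⊆ G γ)

/-- **Lemma L** for a linear order given by its sets of predecessors. -/
theorem lemL_chain {D : Finset V} {G : V → Finset V} (h : IsChainOn D G)
    (f : (V → Bool) → ℝ) {u : (V → Bool) → ℝ}
    (hu : ∀ x, 0 < u x) {κ : ℝ} (h0 : 0 < κ) (h1 : κ < 1) :
    Phi κ f u ∅ + cκ κ * ∑ β ∈ D, avg (fun x =>
      (EE (G β) (fun y => rad β y * f y) x) ^ 2 * (EE (G β) u x) ^ (-κ)) ≤ Phi κ f u D := by
  induction hn : D.card generalizing D with
  | zero =>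
    rw [Finset.card_eq_zero] at hn
    subst hn
    simp
  | succ n ih =>
    have hne : D.Nonempty := by
      rw [← Finset.card_pos]; omega
    obtain ⟨β, hβ, hmax⟩ := Finset.exists_max_image D (fun β => (G β).card) hne
    obtain ⟨hA, hB, hC⟩ := h
    have hGβ : G β = D.erase β := by
      apply Finset.Subset.antisymm
      · intro γ hγ
        rw [Finset.mem_erase]
        exact ⟨fun e => (hA β hβ).2 (e ▸ hγ), (hA β hβ).1 hγ⟩
      · intro γ hγ
        rw [Finset.mem_erase] at hγ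
        rcases hB γ hγ.2 β hβ hγ.1 with h2 | h2
        · exact h2
        · exfalso
          have h3 := hC β hβ γ hγ.2 h2
          have h4 : (G β).card < (G γ).card := by
            apply Finset.card_lt_card
            rw [Finset.ssubset_iff_of_subset h3]
            exact ⟨β, h2, (hA β hβ).2⟩
          have := hmax γ hγ.2
          omega
    have hch : IsChainOn (D.erase β) G := by
      refine ⟨?_, ?_, ?_⟩
      · intro γ hγ
        have hγ' : γ ∈ G β := hGβ ▸ hγ
        refine ⟨?_, (hA γ (Finset.mem_of_mem_erase hγ)).2⟩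
        rw [← hGβ]
        exact hC γ (Finset.mem_of_mem_erase hγ) β hβ hγ'
      · intro γ hγ γ' hγ' hne'
        exact hB γ (Finset.mem_of_mem_erase hγ) γ' (Finset.mem_of_mem_erase hγ') hne'
      · intro γ hγ γ' hγ'
        exact hC γ (Finset.mem_of_mem_erase hγ) γ' (Finset.mem_of_mem_erase hγ')
    have hcard : (D.erase β).card = n := by
      rw [Finset.card_erase_of_mem hβ]; omega
    have h5 := ih hch hcard
    have h6 := Phi_step (Finset.notMem_erase β D) f hu h0 h1
    rw [Finset.insert_erase hβ] at h6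
    rw [← Finset.add_sum_erase D _ hβ, hGβ]
    linarith

end chain

section main

variable {V : Type*} [Fintype V] [LinearOrder V]

/-- The coordinates below `α`. -/
def lt (α : V) : Finset V := univ.filter (fun β => β < α)

lemma mem_lt {α β : V} : β ∈ lt α ↔ β < α := by simp [lt]

lemma isChainOn_lt : IsChainOn (univ : Finset V) lt := by
  refine ⟨?_, ?_, ?_⟩
  · intro β _
    exact ⟨Finset.subset_univ _, by simp [lt]⟩
  · intro β _ γ _ hne
    rcases lt_or_gt_of_ne hne with h | h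
    · exact Or.inl (mem_lt.2 h)
    · exact Or.inr (mem_lt.2 h)
  · intro β _ γ _ h δ hδ
    rw [mem_lt] at *
    exact hδ.trans h

/-- Coefficient function of the block `α`, coordinate `β`. -/
noncomputable def cf (G : V → V → Finset V) (f : (V → Bool) → ℝ) (α β : V) (x : V → Bool) : ℝ :=
  EE (G α β) (fun y => rad α y * rad β y * f y) x

/-- The weighted sum of squares of all coefficients. -/
noncomputable def NN (G : V → V → Finset V) (κ : ℝ) (u f : (V → Bool) → ℝ) : ℝ :=
  (avg f) ^ 2 * (avg u) ^ (-κ) +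
    ∑ α, ((avg (fun x => rad α x * f x)) ^ 2 * (avg u) ^ (-κ) +
      ∑ β ∈ lt α, avg (fun x => (cf G f α β x) ^ 2 * (EE (G α β) u x) ^ (-κ)))

lemma Phi_empty (κ : ℝ) (f u : (V → Bool) → ℝ) :
    Phi κ f u ∅ = (avg f) ^ 2 * (avg u) ^ (-κ) := by
  unfold Phi
  have : (fun x => (EE ∅ f x) ^ 2 * (EE ∅ u x) ^ (-κ)) =
      fun _ : V → Bool => (avg f) ^ 2 * (avg u) ^ (-κ) := by
    ext x; rw [EE_empty, EE_empty]
  rw [this, avg_const]

lemma avg_mul_of_depOn {F : Finset V} {g : (V → Bool) → ℝ} (hg : DepOn F g)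
    (h : (V → Bool) → ℝ) : avg (fun x => g x * h x) = avg (fun x => g x * EE F h x) := by
  rw [← avg_EE F (fun x => g x * h x)]
  apply avg_congr
  intro x
  exact EE_mul_of_depOn hg h x

lemma block_bound {G : V → V → Finset V} {α : V} (hG : IsChainOn (lt α) (G α))
    (f : (V → Bool) → ℝ) {u v : (V → Bool) → ℝ} (hu : ∀ x, 0 < u x)
    {κ : ℝ} (h0 : 0 < κ) (h1 : κ < 1)
    (huv : ∀ x, EE (lt α) (fun y => u y ^ (-κ)) x ≤ (EE (lt α) v x) ^ (-κ)) :
    cκ κ * ((avg (fun x => rad α x * f x)) ^ 2 * (avg u) ^ (-κ) +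
      ∑ β ∈ lt α, avg (fun x => (cf G f α β x) ^ 2 * (EE (G α β) u x) ^ (-κ))) ≤
    avg (fun x => (EE (lt α) (fun y => rad α y * f y) x) ^ 2 * (EE (lt α) v x) ^ (-κ)) := by
  set g := EE (lt α) (fun y => rad α y * f y) with hg
  have hgdep : DepOn (lt α) g := depOn_EE _ _
  have h2 := lemL_chain hG g hu h0 h1
  have e1 : avg (fun x => rad α x * f x) = avg g := by rw [hg, avg_EE]
  have e2 : ∀ β ∈ lt α, EE (G α β) (fun y => rad β y * g y) = cf G f α β := by
    intro β hβ
    ext x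
    unfold cf
    have hsub : G α β ⊆ lt α := (hG.1 β hβ).1
    rw [← EE_EE_of_subset hsub (fun y => rad α y * rad β y * f y)]
    congr 1
    ext y
    have := EE_mul_of_depOn (depOn_rad (F := lt α) hβ) (fun y => rad α y * f y) y
    rw [hg, ← this]
    congr 1
    ext z
    ring
  have h3 : Phi κ g u (lt α) ≤ avg (fun x => g x ^ 2 * (EE (lt α) v x) ^ (-κ)) := by
    calc Phi κ g u (lt α)
        ≤ avg (fun x => g x ^ 2 * EE (lt α) (fun y => u y ^ (-κ)) x) := by
          unfold Phi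
          apply avg_mono
          intro x
          have h4 := EE_sq_mul_rpow_le (lt α) g hu h0 h1 x
          have e3 : EE (lt α) (fun x => g x ^ 2 * u x ^ (-κ)) x
              = g x ^ 2 * EE (lt α) (fun y => u y ^ (-κ)) x := by
            have : DepOn (lt α) (fun x => g x ^ 2) := by
              intro y z hyz
              simp only
              rw [hgdep y z hyz]
            exact EE_mul_of_depOn this _ x
          rw [e3] at h4
          exact h4
      _ ≤ _ := by
          apply avg_mono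
          intro x
          exact mul_le_mul_of_nonneg_left (huv x) (sq_nonneg _)
  rw [Phi_empty] at h2
  have e4 : ∑ β ∈ lt α, avg (fun x => (EE (G α β) (fun y => rad β y * g y) x) ^ 2 *
      (EE (G α β) u x) ^ (-κ)) =
      ∑ β ∈ lt α, avg (fun x => (cf G f α β x) ^ 2 * (EE (G α β) u x) ^ (-κ)) := by
    apply Finset.sum_congr rfl
    intro β hβ
    rw [e2 β hβ]
  rw [e4] at h2
  rw [e1]
  have h5 : cκ κ * ((avg g) ^ 2 * (avg u) ^ (-κ)) ≤ (avg g) ^ 2 * (avg u) ^ (-κ) := by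
    have h6 : 0 ≤ (avg g) ^ 2 * (avg u) ^ (-κ) :=
      mul_nonneg (sq_nonneg _) (Real.rpow_nonneg (avg_pos hu).le _)
    have h7 : cκ κ ≤ 1 := cκ_le.trans (by norm_num)
    nlinarith
  rw [mul_add]
  linarith

theorem NN_le {G : V → V → Finset V} (hG : ∀ α, IsChainOn (lt α) (G α))
    (f : (V → Bool) → ℝ) {u v : (V → Bool) → ℝ} (hu : ∀ x, 0 < u x) (hv : ∀ x, 0 < v x)
    {κ : ℝ} (h0 : 0 < κ) (h1 : κ < 1)
    (huv : ∀ α x, EE (lt α) (fun y => u y ^ (-κ)) x ≤ (EE (lt α) v x) ^ (-κ))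
    (huv0 : avg (fun y => u y ^ (-κ)) ≤ (avg v) ^ (-κ)) :
    cκ κ ^ 2 * NN G κ u f ≤ avg (fun x => f x ^ 2 * v x ^ (-κ)) := by
  have hc0 := cκ_pos h0 h1
  have hc1 : cκ κ ≤ 1 := cκ_le.trans (by norm_num)
  have h2 := lemL_chain (isChainOn_lt (V := V)) f hv h0 h1
  have e1 : Phi κ f v univ = avg (fun x => f x ^ 2 * v x ^ (-κ)) := by
    unfold Phi
    apply avg_congr
    intro x
    rw [EE_univ, EE_univ]
  rw [e1, Phi_empty] at h2
  have h3 : (avg u) ^ (-κ) ≤ (avg v) ^ (-κ) := by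
    refine le_trans ?_ huv0
    rcases isEmpty_or_nonempty (V → Bool) with hE | ⟨⟨x⟩⟩
    · exact absurd (inferInstance : Nonempty (V → Bool)) (not_nonempty_iff.2 hE)
    · have h4 := EE_sq_mul_rpow_le ∅ (fun _ => (1:ℝ)) hu h0 h1 x
      rw [EE_empty, EE_empty, EE_empty, avg_const] at h4
      simpa using h4
  have h5 : cκ κ ^ 2 * ((avg f) ^ 2 * (avg u) ^ (-κ)) ≤ (avg f) ^ 2 * (avg v) ^ (-κ) := by
    have h6 : 0 ≤ (avg f) ^ 2 * (avg u) ^ (-κ) :=
      mul_nonneg (sq_nonneg _) (Real.rpow_nonneg (avg_pos hu).le _)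
    have h7 : cκ κ ^ 2 ≤ 1 := by nlinarith
    have h8 : (avg f) ^ 2 * (avg u) ^ (-κ) ≤ (avg f) ^ 2 * (avg v) ^ (-κ) :=
      mul_le_mul_of_nonneg_left h3 (sq_nonneg _)
    nlinarith
  have h9 : cκ κ ^ 2 * ∑ α, ((avg (fun x => rad α x * f x)) ^ 2 * (avg u) ^ (-κ) +
      ∑ β ∈ lt α, avg (fun x => (cf G f α β x) ^ 2 * (EE (G α β) u x) ^ (-κ))) ≤
      cκ κ * ∑ α, avg (fun x => (EE (lt α) (fun y => rad α y * f y) x) ^ 2 *
        (EE (lt α) v x) ^ (-κ)) := by
    rw [pow_two, mul_assoc, Finset.mul_sum]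
    apply mul_le_mul_of_nonneg_left _ hc0.le
    apply Finset.sum_le_sum
    intro α _
    exact block_bound (hG α) f hu h0 h1 (huv α)
  unfold NN
  rw [mul_add]
  linarith

/-- The block Haar multiplier. -/
noncomputable def TT (G : V → V → Finset V) (ε₀ : ℝ) (ε₁ : V → ℝ) (ε₂ : V → V → (V → Bool) → ℝ)
    (f : (V → Bool) → ℝ) (x : V → Bool) : ℝ :=
  ε₀ * avg f + ∑ α, (ε₁ α * avg (fun y => rad α y * f y) * rad α x +
    ∑ β ∈ lt α, ε₂ α β x * cf G f α β x * (rad α x * rad β x))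

lemma depOn_cf (G : V → V → Finset V) (f : (V → Bool) → ℝ) (α β : V) :
    DepOn (G α β) (cf G f α β) := depOn_EE _ _

lemma avg_TT_mul (G : V → V → Finset V) (ε₀ : ℝ) (ε₁ : V → ℝ) (ε₂ : V → V → (V → Bool) → ℝ)
    (hε₂ : ∀ α β, DepOn (G α β) (ε₂ α β)) (f φ : (V → Bool) → ℝ) :
    avg (fun x => TT G ε₀ ε₁ ε₂ f x * φ x) =
      ε₀ * (avg f * avg φ) + ∑ α, (ε₁ α * (avg (fun y => rad α y * f y) *
        avg (fun y => rad α y * φ y)) +
        ∑ β ∈ lt α, avg (fun x => ε₂ α β x * (cf G f α β x * cf G φ α β x))) := by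
  unfold TT
  have e : (fun x => (ε₀ * avg f + ∑ α, (ε₁ α * avg (fun y => rad α y * f y) * rad α x +
      ∑ β ∈ lt α, ε₂ α β x * cf G f α β x * (rad α x * rad β x))) * φ x) =
      fun x => (ε₀ * avg f) * φ x + ∑ α, ((ε₁ α * avg (fun y => rad α y * f y)) * (rad α x * φ x) +
      ∑ β ∈ lt α, (ε₂ α β x * cf G f α β x) * (rad α x * rad β x * φ x)) := by
    ext x
    rw [add_mul, Finset.sum_mul]
    congr 1
    apply Finset.sum_congr rfl
    intro α _
    rw [add_mul, Finset.sum_mul]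
    congr 1
    · ring
    · apply Finset.sum_congr rfl
      intro β _
      ring
  rw [e, avg_add, avg_mul_left, avg_sum]
  congr 1
  · ring
  · apply Finset.sum_congr rfl
    intro α _
    rw [avg_add, avg_mul_left, avg_sum]
    congr 1
    · ring
    · apply Finset.sum_congr rfl
      intro β _
      rw [avg_mul_of_depOn ((hε₂ α β).mul (depOn_cf G f α β))]
      apply avg_congr
      intro x
      unfold cf
      ring

end main

end Pool.Agent.Hhelper24.UB
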