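import Mathlib

set_option autoImplicit false

/-!
# The finite cube `V → Bool`: averages and conditional expectations
-/

namespace Pool.Agent.Hhelper24.UB

open Finset

set_option linter.unusedSectionVars false

variable {V : Type*} [Fintype V] [DecidableEq V]

/-- Average over the cube `V → Bool`. -/
noncomputable def avg (f : (V → Bool) → ℝ) : ℝ := (∑ x, f x) / 2 ^ Fintype.card V

/-- Conditional expectation on the coordinates in `F`. -/
noncomputable def EE (F : Finset V) (f : (V → Bool) → ℝ) (x : V → Bool) : ℝ :=
  avg (fun y => f (F.piecewise x y))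

/-- Rademacher function. -/
def rad (v : V) (x : V → Bool) : ℝ := if x v then 1 else -1

/-- `f` depends only on the coordinates in `F`. -/
def DepOn (F : Finset V) (f : (V → Bool) → ℝ) : Prop :=
  ∀ x y : V → Bool, (∀ v ∈ F, x v = y v) → f x = f y

lemma card_cube : (Fintype.card (V → Bool) : ℝ) = 2 ^ Fintype.card V := by
  simp

lemma avg_const (c : ℝ) : avg (fun _ : V → Bool => c) = c := by
  unfold avg
  rw [Finset.sum_const, Finset.card_univ, nsmul_eq_mul, card_cube]
  field_simp

lemma avg_add (f g : (V → Bool) → ℝ) : avg (fun x => f x + g x) = avg f + avg g := by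
  unfold avg; rw [Finset.sum_add_distrib]; ring

lemma avg_sub (f g : (V → Bool) → ℝ) : avg (fun x => f x - g x) = avg f - avg g := by
  unfold avg; rw [Finset.sum_sub_distrib]; ring

lemma avg_mul_left (c : ℝ) (f : (V → Bool) → ℝ) : avg (fun x => c * f x) = c * avg f := by
  unfold avg; rw [← Finset.mul_sum]; ring

lemma avg_mul_right (c : ℝ) (f : (V → Bool) → ℝ) : avg (fun x => f x * c) = avg f * c := by
  unfold avg; rw [← Finset.sum_mul]; ring

lemma avg_neg (f : (V → Bool) → ℝ) : avg (fun x => - f x) = - avg f := by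
  unfold avg; rw [Finset.sum_neg_distrib]; ring

lemma avg_sum {ι : Type*} (s : Finset ι) (f : ι → (V → Bool) → ℝ) :
    avg (fun x => ∑ i ∈ s, f i x) = ∑ i ∈ s, avg (f i) := by
  unfold avg; rw [Finset.sum_comm, Finset.sum_div]

lemma avg_mono {f g : (V → Bool) → ℝ} (h : ∀ x, f x ≤ g x) : avg f ≤ avg g := by
  unfold avg
  gcongr with x
  exact h x

lemma avg_nonneg {f : (V → Bool) → ℝ} (h : ∀ x, 0 ≤ f x) : 0 ≤ avg f := by
  unfold avg
  exact div_nonneg (Finset.sum_nonneg fun x _ => h x) (by positivity)

lemma avg_pos {f : (V → Bool) → ℝ} (h : ∀ x, 0 < f x) : 0 < avg f := by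
  unfold avg
  exact div_pos (Finset.sum_pos (fun x _ => h x) Finset.univ_nonempty) (by positivity)

lemma avg_congr {f g : (V → Bool) → ℝ} (h : ∀ x, f x = g x) : avg f = avg g := by
  unfold avg
  rw [Finset.sum_congr rfl fun x _ => h x]

lemma abs_avg_le (f : (V → Bool) → ℝ) : |avg f| ≤ avg (fun x => |f x|) := by
  unfold avg
  rw [abs_div, abs_of_pos (by positivity : (0:ℝ) < 2 ^ Fintype.card V)]
  gcongr
  exact Finset.abs_sum_le_sum_abs _ _

/-- Swapping two independent copies on the coordinates outside `F`. -/
lemma avg_avg_piecewise (F : Finset V) (f : (V → Bool) → ℝ) :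
    avg (fun x => avg (fun y => f (F.piecewise x y))) = avg f := by
  have h1 : ∑ x : V → Bool, ∑ y : V → Bool, f (F.piecewise x y)
      = ∑ x : V → Bool, ∑ _y : V → Bool, f x := by
    rw [← Finset.sum_product', ← Finset.sum_product']
    refine Finset.sum_nbij' (fun p => (F.piecewise p.1 p.2, F.piecewise p.2 p.1))
      (fun p => (F.piecewise p.1 p.2, F.piecewise p.2 p.1)) ?_ ?_ ?_ ?_ ?_
    · intro p _; simp
    · intro p _; simp
    · intro p _
      ext v <;> by_cases hv : v ∈ F <;> simp [Finset.piecewise, hv]
    · intro p _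
      ext v <;> by_cases hv : v ∈ F <;> simp [Finset.piecewise, hv]
    · intro p _; rfl
  unfold avg
  rw [← Finset.sum_div, h1]
  simp only [Finset.sum_const, Finset.card_univ, nsmul_eq_mul, card_cube]
  rw [← Finset.mul_sum]
  field_simp

lemma avg_EE (F : Finset V) (f : (V → Bool) → ℝ) : avg (EE F f) = avg f :=
  avg_avg_piecewise F f

lemma depOn_EE (F : Finset V) (f : (V → Bool) → ℝ) : DepOn F (EE F f) := by
  intro x y h
  unfold EE
  apply avg_congr
  intro z
  congr 1
  ext v
  by_cases hv : v ∈ F <;> simp [Finset.piecewise, hv, h]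

lemma DepOn.mono {F G : Finset V} (hFG : F ⊆ G) {f : (V → Bool) → ℝ} (hf : DepOn F f) :
    DepOn G f := fun x y h => hf x y fun v hv => h v (hFG hv)

lemma DepOn.mul {F : Finset V} {f g : (V → Bool) → ℝ} (hf : DepOn F f) (hg : DepOn F g) :
    DepOn F (fun x => f x * g x) := fun x y h => by
  show f x * g x = f y * g y
  rw [hf x y h, hg x y h]

lemma depOn_rad {F : Finset V} {v : V} (hv : v ∈ F) : DepOn F (rad v) := fun x y h => by
  unfold rad; rw [h v hv]

lemma EE_mul_of_depOn {F : Finset V} {g : (V → Bool) → ℝ} (hg : DepOn F g)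
    (f : (V → Bool) → ℝ) (x : V → Bool) :
    EE F (fun y => g y * f y) x = g x * EE F f x := by
  unfold EE
  rw [← avg_mul_left]
  apply avg_congr
  intro y
  show g (F.piecewise x y) * f (F.piecewise x y) = g x * f (F.piecewise x y)
  rw [hg (F.piecewise x y) x]
  intro v hv
  simp [Finset.piecewise, hv]

lemma EE_of_depOn {F : Finset V} {g : (V → Bool) → ℝ} (hg : DepOn F g) (x : V → Bool) :
    EE F g x = g x := by
  have := EE_mul_of_depOn hg (fun _ => (1:ℝ)) x
  simp only [mul_one] at this
  rw [this]
  unfold EE
  rw [avg_const, mul_one]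

lemma EE_EE (F G : Finset V) (f : (V → Bool) → ℝ) (x : V → Bool) :
    EE F (EE G f) x = EE (F ∩ G) f x := by
  unfold EE
  have h : ∀ y z : V → Bool, f (G.piecewise (F.piecewise x y) z)
      = (fun t => f ((F ∩ G).piecewise x t)) (G.piecewise y z) := by
    intro y z
    show _ = f _
    congr 1
    ext v
    by_cases hG : v ∈ G <;> by_cases hF : v ∈ F <;> simp [Finset.piecewise, hG, hF]
  have : avg (fun y => avg (fun z => f (G.piecewise (F.piecewise x y) z)))
      = avg (fun y => avg (fun z => (fun t => f ((F ∩ G).piecewise x t)) (G.piecewise y z))) := by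
    apply avg_congr; intro y
    apply avg_congr; intro z
    exact h y z
  rw [this]
  exact avg_avg_piecewise G (fun t => f ((F ∩ G).piecewise x t))

lemma EE_EE_of_subset {F G : Finset V} (h : F ⊆ G) (f : (V → Bool) → ℝ) (x : V → Bool) :
    EE F (EE G f) x = EE F f x := by
  rw [EE_EE, Finset.inter_eq_left.2 h]

lemma avg_mul_EE (F : Finset V) (f g : (V → Bool) → ℝ) :
    avg (fun x => g x * EE F f x) = avg (fun x => EE F g x * EE F f x) := by
  rw [← avg_EE F (fun x => g x * EE F f x)]
  apply avg_congr
  intro x
  have := EE_mul_of_depOn (depOn_EE F f) g x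
  rw [← this.trans (mul_comm _ _)]
  congr 1
  ext y
  ring

lemma avg_mul_EE_comm (F : Finset V) (f g : (V → Bool) → ℝ) :
    avg (fun x => g x * EE F f x) = avg (fun x => EE F g x * f x) := by
  rw [avg_mul_EE]
  have := avg_mul_EE F g f
  rw [show (fun x => EE F g x * f x) = (fun x => f x * EE F g x) from by ext; ring, this]
  apply avg_congr; intro x; ring

lemma EE_mono (F : Finset V) {f g : (V → Bool) → ℝ} (h : ∀ x, f x ≤ g x) (x : V → Bool) :
    EE F f x ≤ EE F g x := avg_mono fun _ => h _

lemma EE_nonneg (F : Finset V) {f : (V → Bool) → ℝ} (h : ∀ x, 0 ≤ f x) (x : V → Bool) :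
    0 ≤ EE F f x := avg_nonneg fun _ => h _

lemma EE_pos (F : Finset V) {f : (V → Bool) → ℝ} (h : ∀ x, 0 < f x) (x : V → Bool) :
    0 < EE F f x := avg_pos fun _ => h _

lemma EE_empty (f : (V → Bool) → ℝ) (x : V → Bool) : EE ∅ f x = avg f := by
  unfold EE
  apply avg_congr; intro y
  simp

lemma EE_univ (f : (V → Bool) → ℝ) (x : V → Bool) : EE univ f x = f x :=
  EE_of_depOn (fun _ _ h => congrArg f (funext fun v => h v (mem_univ v))) x

lemma rad_sq (v : V) (x : V → Bool) : rad v x * rad v x = 1 := by
  unfold rad; split_ifs <;> norm_num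

lemma abs_rad (v : V) (x : V → Bool) : |rad v x| = 1 := by
  unfold rad; split_ifs <;> norm_num

/-- The average of a function of one coordinate. -/
lemma avg_coord (v : V) (φ : Bool → ℝ) : avg (fun y : V → Bool => φ (y v)) = (φ true + φ false) / 2 := by
  have h : ∑ y : V → Bool, φ (y v) = ∑ y : V → Bool, φ (!(y v)) := by
    refine Finset.sum_nbij' (fun y => Function.update y v (!(y v)))
      (fun y => Function.update y v (!(y v))) ?_ ?_ ?_ ?_ ?_
    · intro y _; simp
    · intro y _; simp
    · intro y _; simp
    · intro y _; simp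
    · intro y _; simp
  have h2 : ∀ b : Bool, φ b + φ (!b) = φ true + φ false := by
    intro b; cases b <;> simp [add_comm]
  have h3 : 2 * ∑ y : V → Bool, φ (y v) = 2 ^ Fintype.card V * (φ true + φ false) := by
    rw [two_mul]
    nth_rewrite 2 [h]
    rw [← Finset.sum_add_distrib]
    simp only [h2, Finset.sum_const, Finset.card_univ, nsmul_eq_mul, card_cube]
  unfold avg
  have h4 : (0:ℝ) < 2 ^ Fintype.card V := by positivity
  rw [div_eq_div_iff h4.ne' two_ne_zero]
  linarith

lemma EE_coord {S : Finset V} {b : V} (hb : b ∉ S) {h : (V → Bool) → ℝ}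
    (hh : DepOn (insert b S) h) (x : V → Bool) :
    EE S h x = (h (Function.update x b true) + h (Function.update x b false)) / 2 := by
  unfold EE
  rw [← avg_coord b (fun c => h (Function.update x b c))]
  apply avg_congr
  intro y
  apply hh
  intro v hv
  rw [Finset.mem_insert] at hv
  rcases hv with rfl | hv
  · simp [Finset.piecewise, hb]
  · have : v ≠ b := fun e => hb (e ▸ hv)
    simp [Finset.piecewise, hv, this]

/-- One step of the martingale: adding one coordinate. -/
lemma EE_insert {S : Finset V} {b : V} (hb : b ∉ S) (f : (V → Bool) → ℝ) (x : V → Bool) :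
    EE (insert b S) f x = EE S f x + rad b x * EE S (fun y => rad b y * f y) x := by
  set h := EE (insert b S) f with hh
  have hdep : DepOn (insert b S) h := depOn_EE _ _
  have h1 : EE S f x = (h (Function.update x b true) + h (Function.update x b false)) / 2 := by
    rw [← EE_coord hb hdep x, hh, EE_EE_of_subset (Finset.subset_insert b S)]
  have hdep2 : DepOn (insert b S) (fun y => rad b y * h y) :=
    (depOn_rad (Finset.mem_insert_self b S)).mul hdep
  have h2 : EE S (fun y => rad b y * f y) x
      = (h (Function.update x b true) - h (Function.update x b false)) / 2 := by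
    have e1 : EE S (fun y => rad b y * f y) x = EE S (fun y => rad b y * h y) x := by
      rw [← EE_EE_of_subset (Finset.subset_insert b S) (fun y => rad b y * f y)]
      congr 1
      ext y
      rw [hh, EE_mul_of_depOn (depOn_rad (Finset.mem_insert_self b S))]
    rw [e1, EE_coord hb hdep2 x]
    simp [rad]
    ring
  rw [h1, h2]
  unfold rad
  by_cases hx : x b = true
  · rw [if_pos hx]
    have : Function.update x b true = x := by rw [← hx]; exact Function.update_eq_self b x
    rw [this]; ring
  · rw [if_neg hx]
    have hx' : x b = false := by simpa using hx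
    have : Function.update x b false = x := by rw [← hx']; exact Function.update_eq_self b x
    rw [this]; ring

end Pool.Agent.Hhelper24.UB
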