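import Mathlib

set_option autoImplicit false

/-!
# A two point convexity inequality for `x² u^{-κ}`
-/

namespace Pool.Agent.Hhelper24.UB

/-- Refined Young inequality. -/
lemma rpow_le_refined {κ t : ℝ} (h0 : 0 < κ) (h1 : κ < 1) (ht : 0 ≤ t) :
    t ^ κ ≤ κ * t + (1 - κ) - min κ (1 - κ) * (1 - √t) ^ 2 := by
  have hs : 0 ≤ √t := Real.sqrt_nonneg t
  have hss : √t * √t = t := Real.mul_self_sqrt ht
  rcases le_total κ (1 - κ) with h | h
  · rw [min_eq_left h]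
    have := Real.geom_mean_le_arith_mean2_weighted (w₁ := 1 - 2 * κ) (w₂ := 2 * κ) (p₁ := 1)
      (p₂ := √t) (by linarith) (by linarith) zero_le_one hs (by ring)
    rw [Real.one_rpow, one_mul] at this
    have e : √t ^ (2 * κ) = t ^ κ := by
      rw [Real.sqrt_eq_rpow, ← Real.rpow_mul ht]
      congr 1; ring
    rw [e] at this
    nlinarith
  · rw [min_eq_right h]
    have := Real.geom_mean_le_arith_mean2_weighted (w₁ := 2 * κ - 1) (w₂ := 2 * (1 - κ)) (p₁ := t)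
      (p₂ := √t) (by linarith) (by linarith) ht hs (by ring)
    rcases ht.eq_or_lt with rfl | hpos
    · rw [Real.zero_rpow h0.ne', Real.sqrt_zero]
      nlinarith
    · have e : t ^ (2 * κ - 1) * √t ^ (2 * (1 - κ)) = t ^ κ := by
        rw [Real.sqrt_eq_rpow, ← Real.rpow_mul ht, ← Real.rpow_add hpos]
        congr 1; ring
      rw [e] at this
      nlinarith

/-- The constant of the two point inequality. -/
noncomputable def cκ (κ : ℝ) : ℝ := min κ (1 - κ) / 16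

lemma cκ_pos {κ : ℝ} (h0 : 0 < κ) (h1 : κ < 1) : 0 < cκ κ := by
  unfold cκ
  have : 0 < min κ (1 - κ) := lt_min h0 (by linarith)
  positivity

lemma cκ_le {κ : ℝ} : cκ κ ≤ 1 / 32 := by
  unfold cκ
  rcases le_total κ (1 - κ) with h | h
  · rw [min_eq_left h]; linarith
  · rw [min_eq_right h]; linarith

lemma two_point_aux {κ e : ℝ} (h0 : 0 < κ) (h1 : κ < 1) (he0 : 0 ≤ e) (he1 : e < 1) :
    (1 + cκ κ) * ((1 + e) ^ κ + (1 - e) ^ κ) ≤
      2 + 2 * cκ κ * (1 + e) ^ κ * (1 - e) ^ κ ∧ (1 + e) ^ κ * (1 - e) ^ κ ≤ 1 := by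
  set a := (1 + e) ^ κ with ha
  set b := (1 - e) ^ κ with hb
  set δ := min κ (1 - κ) with hδ
  have hδ0 : 0 < δ := lt_min h0 (by linarith)
  have hδ1 : δ ≤ 1 / 2 := by
    rcases le_total κ (1 - κ) with h | h
    · rw [hδ, min_eq_left h]; linarith
    · rw [hδ, min_eq_right h]; linarith
  have ha0 : 1 ≤ a := Real.one_le_rpow (by linarith) h0.le
  have ha1 : a ≤ 1 + κ * e := by
    have := rpow_one_add_le_one_add_mul_self (s := e) (p := κ) (by linarith) h0.le h1.le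
    exact this
  have hb0 : 0 < b := Real.rpow_pos_of_pos (by linarith) κ
  have hb1 : b ≤ 1 - κ * e - δ * e ^ 2 / 4 := by
    have h2 := rpow_le_refined h0 h1 (t := 1 - e) (by linarith)
    have hs : 0 ≤ √(1 - e) := Real.sqrt_nonneg _
    have hss : √(1 - e) * √(1 - e) = 1 - e := Real.mul_self_sqrt (by linarith)
    have hs1 : √(1 - e) ≤ 1 := by
      rw [Real.sqrt_le_left (by norm_num)]; linarith
    have h3 : e / 2 ≤ 1 - √(1 - e) := by nlinarith
    have h4 : (e / 2) ^ 2 ≤ (1 - √(1 - e)) ^ 2 := by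
      apply pow_le_pow_left₀ (by linarith) h3
    have h5 : δ * (e / 2) ^ 2 ≤ δ * (1 - √(1 - e)) ^ 2 := by
      apply mul_le_mul_of_nonneg_left h4 hδ0.le
    nlinarith
  have hb2 : 1 - e ≤ b := by
    have : (1 - e) ^ (1:ℝ) ≤ (1 - e) ^ κ :=
      Real.rpow_le_rpow_of_exponent_ge (by linarith) (by linarith) h1.le
    rwa [Real.rpow_one] at this
  have hc : cκ κ = δ / 16 := rfl
  have hab : a * b ≤ 1 := by
    have : a * b = ((1 + e) * (1 - e)) ^ κ := by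
      rw [Real.mul_rpow (by linarith) (by linarith)]
    rw [this]
    apply Real.rpow_le_one (by nlinarith) (by nlinarith) h0.le
  refine ⟨?_, hab⟩
  have hαβ : (a - 1) * (1 - b) ≤ e ^ 2 := by
    have : (a - 1) * (1 - b) ≤ (κ * e) * e := by
      apply mul_le_mul (by linarith) (by linarith) (by nlinarith) (by positivity)
    nlinarith
  have h6 : δ * e ^ 2 / 4 ≤ 2 - a - b := by linarith
  have h7 : a + b ≤ 2 := by nlinarith [sq_nonneg e]
  rw [hc]
  have h8 : a + b - 2 * (a * b) ≤ 2 * (2 - a - b) + 2 * e ^ 2 := by nlinarith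
  nlinarith

lemma quad_aux {a b c : ℝ} (ha : 0 < a) (hb : 0 < b) (hc : 0 ≤ c) (hc1 : c ≤ 1) (hab : a * b ≤ 1)
    (h : (1 + c) * (a + b) ≤ 2 + 2 * c * a * b) (x d : ℝ) :
    2 * (x ^ 2 + c * d ^ 2) ≤ (x + d) ^ 2 / a + (x - d) ^ 2 / b := by
  rw [div_add_div _ _ ha.ne' hb.ne', le_div_iff₀ (mul_pos ha hb)]
  have hab0 : 0 < a * b := mul_pos ha hb
  set P := a + b - 2 * (a * b) with hP
  set Q := b - a with hQ
  set R := a + b - 2 * (a * b) * c with hR
  have hP0 : 0 ≤ P := by nlinarith [sq_nonneg (a - b)]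
  have hPR : Q ^ 2 ≤ P * R := by
    have : P * R - Q ^ 2 = 2 * (a * b) * (2 + 2 * c * a * b - (1 + c) * (a + b)) := by
      rw [hP, hQ, hR]; ring
    nlinarith
  have hform : 0 ≤ P * x ^ 2 + 2 * Q * x * d + R * d ^ 2 := by
    rcases hP0.eq_or_lt with hp | hp
    · have hQ0 : Q = 0 := by
        have : Q ^ 2 ≤ 0 := by rw [← hp, zero_mul] at hPR; exact hPR
        nlinarith [sq_nonneg Q]
      have hR0 : 0 ≤ R := by nlinarith
      rw [hQ0, ← hp]
      nlinarith [sq_nonneg d]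
    · have : 0 ≤ P * (P * x ^ 2 + 2 * Q * x * d + R * d ^ 2) := by
        have e : P * (P * x ^ 2 + 2 * Q * x * d + R * d ^ 2)
            = (P * x + Q * d) ^ 2 + (P * R - Q ^ 2) * d ^ 2 := by ring
        rw [e]
        have := sq_nonneg (P * x + Q * d)
        have := mul_nonneg (sub_nonneg.2 hPR) (sq_nonneg d)
        linarith
      exact nonneg_of_mul_nonneg_right this hp
  rw [hP, hQ, hR] at hform
  nlinarith

/-- Two point inequality. -/
theorem two_point {κ : ℝ} (h0 : 0 < κ) (h1 : κ < 1) {u₁ u₂ : ℝ} (hu₁ : 0 < u₁) (hu₂ : 0 < u₂)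
    (x₁ x₂ : ℝ) :
    (((x₁ + x₂) / 2) ^ 2 + cκ κ * ((x₁ - x₂) / 2) ^ 2) * ((u₁ + u₂) / 2) ^ (-κ) ≤
      (x₁ ^ 2 * u₁ ^ (-κ) + x₂ ^ 2 * u₂ ^ (-κ)) / 2 := by
  wlog h : u₂ ≤ u₁ generalizing u₁ u₂ x₁ x₂
  · have := this hu₂ hu₁ x₂ x₁ (le_of_not_ge h)
    rw [add_comm u₂ u₁, add_comm x₂ x₁] at this
    calc _ = (((x₁ + x₂) / 2) ^ 2 + cκ κ * ((x₂ - x₁) / 2) ^ 2) * ((u₁ + u₂) / 2) ^ (-κ) := by ring
      _ ≤ _ := this
      _ = _ := by ring
  set m := (u₁ + u₂) / 2 with hm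
  have hm0 : 0 < m := by rw [hm]; positivity
  set e := (u₁ - u₂) / (2 * m) with he
  have he0 : 0 ≤ e := by rw [he]; apply div_nonneg (by linarith) (by positivity)
  have he1 : e < 1 := by
    rw [he, div_lt_one (by positivity), hm]; linarith
  have hu₁' : u₁ = m * (1 + e) := by
    rw [he]; field_simp; rw [hm]; ring
  have hu₂' : u₂ = m * (1 - e) := by
    rw [he]; field_simp; rw [hm]; ring
  obtain ⟨h2, h3⟩ := two_point_aux h0 h1 he0 he1
  have ha : 0 < (1 + e) ^ κ := Real.rpow_pos_of_pos (by linarith) κ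
  have hb : 0 < (1 - e) ^ κ := Real.rpow_pos_of_pos (by linarith) κ
  have hq := quad_aux ha hb (cκ_pos h0 h1).le (cκ_le.trans (by norm_num)) h3
    (by linarith [h2]) ((x₁ + x₂) / 2) ((x₁ - x₂) / 2)
  have e1 : (x₁ + x₂) / 2 + (x₁ - x₂) / 2 = x₁ := by ring
  have e2 : (x₁ + x₂) / 2 - (x₁ - x₂) / 2 = x₂ := by ring
  rw [e1, e2] at hq
  have hmκ : 0 < m ^ (-κ) := Real.rpow_pos_of_pos hm0 _
  have e3 : u₁ ^ (-κ) = m ^ (-κ) / (1 + e) ^ κ := by
    rw [hu₁', Real.mul_rpow hm0.le (by linarith), Real.rpow_neg (by linarith : (0:ℝ) ≤ 1 + e)]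
    rfl
  have e4 : u₂ ^ (-κ) = m ^ (-κ) / (1 - e) ^ κ := by
    rw [hu₂', Real.mul_rpow hm0.le (by linarith), Real.rpow_neg (by linarith : (0:ℝ) ≤ 1 - e)]
    rfl
  rw [e3, e4]
  calc _ = (2 * (((x₁ + x₂) / 2) ^ 2 + cκ κ * ((x₁ - x₂) / 2) ^ 2)) * (m ^ (-κ) / 2) := by ring
    _ ≤ (x₁ ^ 2 / (1 + e) ^ κ + x₂ ^ 2 / (1 - e) ^ κ) * (m ^ (-κ) / 2) := by gcongr
    _ = _ := by ring

end Pool.Agent.Hhelper24.UB
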