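import Pool.Agent.Hhelper24.UB.Cube
import Pool.Agent.Hhelper24.UB.TwoPoint

set_option autoImplicit false

/-!
# Weighted square function estimate (Lemma L)
-/

namespace Pool.Agent.Hhelper24.UB

open Finset

set_option linter.unusedSectionVars false

variable {V : Type*} [Fintype V] [DecidableEq V]

lemma avg_rpow_le {f : (V → Bool) → ℝ} (hf : ∀ x, 0 ≤ f x) {p : ℝ} (hp : 1 ≤ p) :
    (avg f) ^ p ≤ avg (fun x => f x ^ p) := by
  have h := Real.rpow_arith_mean_le_arith_mean_rpow (univ : Finset (V → Bool))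
    (fun _ => 1 / 2 ^ Fintype.card V) f (fun _ _ => by positivity)
    (by rw [Finset.sum_const, Finset.card_univ, nsmul_eq_mul, card_cube]; field_simp)
    (fun x _ => hf x) hp
  have e1 : avg f = ∑ x : V → Bool, 1 / 2 ^ Fintype.card V * f x := by
    unfold avg; rw [← Finset.mul_sum]; ring
  have e2 : avg (fun x => f x ^ p) = ∑ x : V → Bool, 1 / 2 ^ Fintype.card V * f x ^ p := by
    unfold avg; rw [← Finset.mul_sum]; ring
  rw [e1, e2]
  exact h

lemma EE_rpow_le (F : Finset V) {f : (V → Bool) → ℝ} (hf : ∀ x, 0 ≤ f x) {p : ℝ} (hp : 1 ≤ p)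
    (x : V → Bool) : (EE F f x) ^ p ≤ EE F (fun x => f x ^ p) x :=
  avg_rpow_le (fun _ => hf _) hp

lemma avg_mul_sq_le (f g : (V → Bool) → ℝ) :
    (avg (fun x => f x * g x)) ^ 2 ≤ avg (fun x => f x ^ 2) * avg (fun x => g x ^ 2) := by
  unfold avg
  have h := Finset.sum_mul_sq_le_sq_mul_sq (univ : Finset (V → Bool)) f g
  rw [div_pow, div_mul_div_comm, ← pow_two]
  gcongr

lemma EE_mul_sq_le (F : Finset V) (f g : (V → Bool) → ℝ) (x : V → Bool) :
    (EE F (fun x => f x * g x) x) ^ 2 ≤ EE F (fun x => f x ^ 2) x * EE F (fun x => g x ^ 2) x :=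
  avg_mul_sq_le _ _

/-- Conditional expectation contracts the functional `f² u^{-κ}`. -/
lemma EE_sq_mul_rpow_le (F : Finset V) (f : (V → Bool) → ℝ) {u : (V → Bool) → ℝ}
    (hu : ∀ x, 0 < u x) {κ : ℝ} (h0 : 0 < κ) (h1 : κ < 1) (x : V → Bool) :
    (EE F f x) ^ 2 * (EE F u x) ^ (-κ) ≤ EE F (fun x => f x ^ 2 * u x ^ (-κ)) x := by
  have hU : 0 < EE F u x := EE_pos F hu x
  have hcs := EE_mul_sq_le F (fun x => f x * u x ^ (-κ / 2)) (fun x => u x ^ (κ / 2)) x
  have e1 : (fun x => (f x * u x ^ (-κ / 2)) * u x ^ (κ / 2)) = f := by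
    ext y
    rw [mul_assoc, ← Real.rpow_add (hu y)]
    rw [show -κ / 2 + κ / 2 = 0 by ring, Real.rpow_zero, mul_one]
  have e2 : (fun x => (f x * u x ^ (-κ / 2)) ^ 2) = fun x => f x ^ 2 * u x ^ (-κ) := by
    ext y
    rw [mul_pow, ← Real.rpow_natCast (u y ^ (-κ / 2)) 2, ← Real.rpow_mul (hu y).le]
    congr 2; push_cast; ring
  have e3 : (fun x => (u x ^ (κ / 2)) ^ 2) = fun x => u x ^ κ := by
    ext y
    rw [← Real.rpow_natCast (u y ^ (κ / 2)) 2, ← Real.rpow_mul (hu y).le]
    congr 1; push_cast; ring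
  rw [e1, e2, e3] at hcs
  have hj : EE F (fun x => u x ^ κ) x ≤ (EE F u x) ^ κ := by
    have h := EE_rpow_le F (f := fun x => u x ^ κ) (fun y => (Real.rpow_pos_of_pos (hu y) _).le)
      (p := 1 / κ) (by rw [le_div_iff₀ h0]; linarith) x
    have e4 : (fun x => (u x ^ κ) ^ (1 / κ)) = u := by
      ext y
      rw [← Real.rpow_mul (hu y).le, mul_one_div_cancel h0.ne', Real.rpow_one]
    rw [e4] at h
    have hpos : 0 ≤ EE F (fun x => u x ^ κ) x :=
      EE_nonneg F (fun y => (Real.rpow_pos_of_pos (hu y) _).le) x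
    calc EE F (fun x => u x ^ κ) x = ((EE F (fun x => u x ^ κ) x) ^ (1 / κ)) ^ κ := by
          rw [← Real.rpow_mul hpos, one_div_mul_cancel h0.ne', Real.rpow_one]
      _ ≤ (EE F u x) ^ κ := by
          apply Real.rpow_le_rpow (Real.rpow_nonneg hpos _) h h0.le
  have hA : 0 ≤ EE F (fun x => f x ^ 2 * u x ^ (-κ)) x :=
    EE_nonneg F (fun y => mul_nonneg (sq_nonneg _) (Real.rpow_pos_of_pos (hu y) _).le) x
  calc (EE F f x) ^ 2 * (EE F u x) ^ (-κ)
      ≤ (EE F (fun x => f x ^ 2 * u x ^ (-κ)) x * (EE F u x) ^ κ) * (EE F u x) ^ (-κ) := by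
        apply mul_le_mul_of_nonneg_right _ (Real.rpow_pos_of_pos hU _).le
        exact hcs.trans (mul_le_mul_of_nonneg_left hj hA)
    _ = _ := by
        rw [mul_assoc, ← Real.rpow_add hU, add_neg_cancel, Real.rpow_zero, mul_one]

/-- The functional `Φ`. -/
noncomputable def Phi (κ : ℝ) (f u : (V → Bool) → ℝ) (S : Finset V) : ℝ :=
  avg (fun x => (EE S f x) ^ 2 * (EE S u x) ^ (-κ))

lemma Phi_le (S : Finset V) (f : (V → Bool) → ℝ) {u : (V → Bool) → ℝ}
    (hu : ∀ x, 0 < u x) {κ : ℝ} (h0 : 0 < κ) (h1 : κ < 1) :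
    Phi κ f u S ≤ avg (fun x => f x ^ 2 * u x ^ (-κ)) := by
  unfold Phi
  rw [← avg_EE S (fun x => f x ^ 2 * u x ^ (-κ))]
  exact avg_mono fun x => EE_sq_mul_rpow_le S f hu h0 h1 x

lemma update_dep {S : Finset V} {b : V} (hb : b ∉ S) {h : (V → Bool) → ℝ} (hh : DepOn S h)
    (x : V → Bool) (c : Bool) : h (Function.update x b c) = h x := by
  apply hh
  intro v hv
  have : v ≠ b := fun e => hb (e ▸ hv)
  simp [this]

lemma Phi_step {S : Finset V} {b : V} (hb : b ∉ S) (f : (V → Bool) → ℝ) {u : (V → Bool) → ℝ}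
    (hu : ∀ x, 0 < u x) {κ : ℝ} (h0 : 0 < κ) (h1 : κ < 1) :
    Phi κ f u S + cκ κ * avg (fun x => (EE S (fun y => rad b y * f y) x) ^ 2 *
      (EE S u x) ^ (-κ)) ≤ Phi κ f u (insert b S) := by
  unfold Phi
  set h : (V → Bool) → ℝ := fun x => (EE (insert b S) f x) ^ 2 * (EE (insert b S) u x) ^ (-κ)
    with hh
  rw [← avg_EE S h, ← avg_mul_left, ← avg_add]
  apply avg_mono
  intro x
  have hdep : DepOn (insert b S) h := by
    intro y z hyz
    simp only [hh]
    rw [depOn_EE (insert b S) f y z hyz, depOn_EE (insert b S) u y z hyz]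
  rw [EE_coord hb hdep x]
  simp only [hh]
  have key : ∀ (g : (V → Bool) → ℝ) (c : Bool), EE (insert b S) g (Function.update x b c)
      = EE S g x + (if c then 1 else -1) * EE S (fun y => rad b y * g y) x := by
    intro g c
    rw [EE_insert hb, update_dep hb (depOn_EE S g), update_dep hb (depOn_EE S _)]
    simp [rad]
  have hu1 : 0 < EE (insert b S) u (Function.update x b true) := EE_pos _ hu _
  have hu2 : 0 < EE (insert b S) u (Function.update x b false) := EE_pos _ hu _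
  have h2 := two_point h0 h1 hu1 hu2 (EE (insert b S) f (Function.update x b true))
    (EE (insert b S) f (Function.update x b false))
  rw [key f true, key f false, key u true, key u false] at h2
  rw [key f true, key f false, key u true, key u false]
  simp only [if_true, Bool.false_eq_true, if_false] at h2 ⊢
  have e1 : (EE S f x + 1 * EE S (fun y => rad b y * f y) x +
      (EE S f x + -1 * EE S (fun y => rad b y * f y) x)) / 2 = EE S f x := by ring
  have e2 : (EE S f x + 1 * EE S (fun y => rad b y * f y) x -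
      (EE S f x + -1 * EE S (fun y => rad b y * f y) x)) / 2 =
      EE S (fun y => rad b y * f y) x := by ring
  have e3 : (EE S u x + 1 * EE S (fun y => rad b y * u y) x +
      (EE S u x + -1 * EE S (fun y => rad b y * u y) x)) / 2 = EE S u x := by ring
  rw [e1, e2, e3] at h2
  calc _ = ((EE S f x) ^ 2 + cκ κ * (EE S (fun y => rad b y * f y) x) ^ 2) *
        (EE S u x) ^ (-κ) := by ring
    _ ≤ _ := h2

/-- **Lemma L.**  Along a chain which adds one coordinate at a time. -/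
theorem lemL {m : ℕ} {S : ℕ → Finset V} {b : ℕ → V} (hb : ∀ k < m, b k ∉ S k)
    (hS : ∀ k < m, S (k + 1) = insert (b k) (S k)) (f : (V → Bool) → ℝ) {u : (V → Bool) → ℝ}
    (hu : ∀ x, 0 < u x) {κ : ℝ} (h0 : 0 < κ) (h1 : κ < 1) :
    Phi κ f u (S 0) + cκ κ * ∑ k ∈ range m, avg (fun x =>
      (EE (S k) (fun y => rad (b k) y * f y) x) ^ 2 * (EE (S k) u x) ^ (-κ)) ≤
      avg (fun x => f x ^ 2 * u x ^ (-κ)) := by
  have key : ∀ n ≤ m, Phi κ f u (S 0) + cκ κ * ∑ k ∈ range n, avg (fun x =>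
      (EE (S k) (fun y => rad (b k) y * f y) x) ^ 2 * (EE (S k) u x) ^ (-κ)) ≤
      Phi κ f u (S n) := by
    intro n hn
    induction n with
    | zero => simp
    | succ n ih =>
      rw [Finset.sum_range_succ, mul_add, ← add_assoc, hS n (by omega)]
      have := ih (by omega)
      have := Phi_step (hb n (by omega)) f hu h0 h1
      linarith
  exact (key m le_rfl).trans (Phi_le _ f hu h0 h1)

end Pool.Agent.Hhelper24.UB
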